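import Pool.Agent.H19.SYA.TA
import Pool.Agent.H19.SYA.TB

/-!
Symplectic torus actions on affine four-space (MP_51eb24_ag): row AGP.
-/

set_option autoImplicit false

namespace Pool.Agent.H59.SYA

open MvPolynomial Pool.Agent.H2.ST Pool.Agent.H15.TG Pool.Agent.H19.SYA

/-- a cell with all its data -/
structure CB (k σ : Type) [Field k] where
  L : Type
  fL : Field L
  aL : Algebra k L
  n : ℕ
  t : ℕ
  v : Fin n → L
  Φ : MvPolynomial σ k →ₐ[k] L
  a : Fin t → Fin n
  c : Fin t → k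
  f : MvPolynomial σ k
  cel : Cel v Φ a c f

lemma agl (hAGL : T_AGL) {k σ : Type} [Field k] [Fintype σ] {r : ℕ} (B : Fin r → CB k σ)
    (hd : ∀ i j, i < j → (letI := (B j).fL; letI := (B j).aL; (B j).Φ (B i).f = 0)) :
    ∃ (F : Type) (_ : Field F) (_ : Fintype F) (c' : ∀ i, Fin (B i).t → F),
      ∑ i, Nat.card {x : Fin (B i).n → F // ∀ s, x ((B i).a s) ≠ c' i s} ≤
        Fintype.card F ^ Fintype.card σ := by
  letI : ∀ i, Field (B i).L := fun i => (B i).fL
  letI : ∀ i, Algebra k (B i).L := fun i => (B i).aL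
  exact hAGL k σ r (fun i => (B i).L) (fun i => (B i).n) (fun i => (B i).t) (fun i => (B i).v)
    (fun i => (B i).Φ) (fun i => (B i).a) (fun i => (B i).c) (fun i => (B i).f)
    (fun i => (B i).cel) hd

lemma card_ne {F : Type} [Fintype F] (c : F) : Nat.card {y : F // y ≠ c} =
    Fintype.card F - 1 := by
  classical
  rw [Nat.card_eq_fintype_card, Fintype.card_subtype_compl, Fintype.card_subtype_eq]

lemma count1 {F : Type} [Fintype F] (n : ℕ) (c : Fin 1 → F) :
    Nat.card {x : Fin (n + 1) → F // ∀ s : Fin 1, x 0 ≠ c s} =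
      (Fintype.card F - 1) * Fintype.card F ^ n := by
  have e : {x : Fin (n + 1) → F // ∀ s : Fin 1, x 0 ≠ c s} ≃ {y : F // y ≠ c 0} × (Fin n → F) :=
    { toFun := fun x => (⟨x.1 0, x.2 0⟩, Fin.tail x.1)
      invFun := fun y => ⟨Fin.cons y.1.1 y.2, fun s => by
        rw [Fin.cons_zero, Subsingleton.elim s 0]; exact y.1.2⟩
      left_inv := fun x => Subtype.ext (Fin.cons_self_tail x.1)
      right_inv := fun y => by simp }
  rw [Nat.card_congr e, Nat.card_prod, card_ne, Nat.card_fun, Nat.card_eq_fintype_card,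
    Nat.card_eq_fintype_card, Fintype.card_fin]

lemma count0 {F : Type} [Fintype F] (n : ℕ) (P : Fin 0 → (Fin n → F) → Prop) :
    Nat.card {x : Fin n → F // ∀ s : Fin 0, P s x} = Fintype.card F ^ n := by
  have e : {x : Fin n → F // ∀ s : Fin 0, P s x} ≃ (Fin n → F) :=
    Equiv.subtypeUnivEquiv fun x s => s.elim0
  rw [Nat.card_congr e, Nat.card_fun, Nat.card_eq_fintype_card,
    Nat.card_eq_fintype_card, Fintype.card_fin]

theorem pf_AGP (hAGL : T_AGL) (hCCL : T_CCL) (hPAI : T_PAI) (hXPZ : T_XPZ) :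
    Pool.Agent.H19.SYA.T_AGP := by
  intro k _ _ _ W H y wy p q S α β k1 L _ _ Θ v w m φ φ' hy hφ hφ' hP hC z hz hcon
  have hai : AlgebraicIndependent k ![p, q, H, S] :=
    hPAI k W H y wy p q S α β k1 0 hy hP.toPr
  obtain ⟨n, F, hn, hF, hFz⟩ := hXPZ k W wy φ hy.toGr hy.wp hφ z hz
  -- the negative plane kills positive weights
  have hneg : ∀ (l : ℤ) (f : Pol k 2), 0 < l → f ∈ W l → φ' f = 0 := fun l f hl hf =>
    hφ'.neg (-l) (by omega) f (by simpa using hf)
  -- the cells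
  let i0 : Pol k 2 →ₐ[k] FractionRing (Pol k 2) :=
    IsScalarTower.toAlgHom k (Pol k 2) (FractionRing (Pol k 2))
  have hi0 : Function.Injective i0 := IsFractionRing.injective (Pol k 2) (FractionRing (Pol k 2))
  let i3 : MvPolynomial (Fin 2) k →ₐ[k] FractionRing (MvPolynomial (Fin 2) k) :=
    IsScalarTower.toAlgHom k _ _
  have hi3 : Function.Injective i3 := IsFractionRing.injective _ _
  have hpr : (∏ l : Fin 1, ((fun i => i0 (![p, q, H, S] i)) ((fun _ : Fin 1 => (0 : Fin 4)) l) -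
      algebraMap k (FractionRing (Pol k 2)) ((fun _ : Fin 1 => (0 : k)) l))) = i0 p := by
    rw [Fin.prod_univ_one, map_zero, sub_zero]
    rfl
  have c0 : Cel (fun i => i0 (![p, q, H, S] i)) i0 (fun _ : Fin 1 => (0 : Fin 4))
      (fun _ : Fin 1 => (0 : k)) p := by
    refine ⟨?_, ?_, ?_, ?_⟩
    · exact hai.map' hi0
    · intro s
      obtain ⟨N, P, hNP⟩ := hP.ge1 (X s)
      refine ⟨N, P, ?_⟩
      have h1 := congrArg i0 hNP
      rw [map_mul, map_pow] at h1
      have h2 : i0 (aeval ![p, q, H, S] P) = aeval (fun i => i0 (![p, q, H, S] i)) P := by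
        rw [← AlgHom.comp_apply, MvPolynomial.comp_aeval]
      rw [h2] at h1
      rw [← h1, hpr, mul_comm]
    · refine ⟨1, 1, ?_⟩
      rw [hpr, map_one, mul_one, pow_one]
    · intro i
      refine ⟨0, ![p, q, H, S] i, ?_⟩
      rw [pow_zero, mul_one]
  have c1 : Cel v Θ (fun _ : Fin 1 => (0 : Fin 3)) (fun _ : Fin 1 => (0 : k)) q :=
    hCCL k W H p q α β L Θ v w m hy.toPGr hC q 1 m one_ne_zero (by rw [hC.tf, map_one, one_mul])
      ⟨1, by rw [pow_one]⟩
  have c2 : Cel (fun i : Fin 0 => (i.elim0 : k)) ((aeval z).comp φ : Pol k 2 →ₐ[k] k)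
      (fun i : Fin 0 => i) (fun i : Fin 0 => (i.elim0 : k)) F := by
    refine ⟨?_, ?_, ?_, ?_⟩
    · exact algebraicIndependent_empty_type_iff.2 (RingHom.injective _)
    · intro s
      exact ⟨0, C ((aeval z).comp φ (X s)), by simp⟩
    · refine ⟨0, C (((aeval z).comp φ F)⁻¹), ?_⟩
      have : (aeval z).comp φ F ≠ 0 := by
        rw [AlgHom.comp_apply]
        simpa [aeval_eq_eval] using hFz
      simp only [pow_zero]
      rw [aeval_C, Algebra.algebraMap_self, RingHom.id_apply]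
      exact mul_inv_cancel₀ this
    · exact fun i => i.elim0
  have c3 : Cel (fun i : Fin 2 => i3 (X i)) (i3.comp φ') (fun i : Fin 0 => (i.elim0 : Fin 2))
      (fun i : Fin 0 => (i.elim0 : k)) (1 : Pol k 2) := by
    refine ⟨?_, ?_, ?_, ?_⟩
    · exact (algebraicIndependent_X (Fin 2) k).map' hi3
    · intro s
      refine ⟨0, φ' (X s), ?_⟩
      have h2 : aeval (fun i : Fin 2 => i3 (X i)) (φ' (X s)) = i3 (φ' (X s)) := by
        have := MvPolynomial.comp_aeval (R := k) (fun i : Fin 2 => (X i : MvPolynomial (Fin 2) k))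
          i3
        rw [← this, AlgHom.comp_apply, aeval_X_left_apply]
      rw [h2]; simp
    · exact ⟨0, 1, by simp⟩
    · intro i
      obtain ⟨Q, hQ⟩ := hφ'.sur (X i)
      exact ⟨0, Q, by simp [hQ]⟩
  let B : Fin 4 → CB k (Fin 2 ⊕ Fin 2) :=
    ![⟨_, _, _, _, _, _, _, _, _, _, c0⟩, ⟨_, _, _, _, _, _, _, _, _, _, c1⟩,
      ⟨_, _, _, _, _, _, _, _, _, _, c2⟩, ⟨_, _, _, _, _, _, _, _, _, _, c3⟩]
  have hd : ∀ i j, i < j → (letI := (B j).fL; letI := (B j).aL; (B j).Φ (B i).f = 0) := by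
    have e01 : Θ p = 0 := (hC.ker p).2 dvd_rfl
    have e02 : (aeval z).comp φ p = 0 := by
      rw [AlgHom.comp_apply]; simpa [aeval_eq_eval] using hcon.1
    have e12 : (aeval z).comp φ q = 0 := by
      rw [AlgHom.comp_apply]; simpa [aeval_eq_eval] using hcon.2
    have e03 : i3.comp φ' p = 0 := by
      rw [AlgHom.comp_apply, hneg α p hP.pa hP.hg, map_zero]
    have e13 : i3.comp φ' q = 0 := by
      rw [AlgHom.comp_apply, hneg β q hP.pb hP.hf, map_zero]
    have e23 : i3.comp φ' F = 0 := by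
      rw [AlgHom.comp_apply, hneg n F hn hF, map_zero]
    intro i j hij
    fin_cases i <;> fin_cases j <;>
      first
        | exact absurd hij (by decide)
        | exact e01
        | exact e02
        | exact e03
        | exact e12
        | exact e13
        | exact e23
  obtain ⟨G, _, _, c', hle⟩ := agl hAGL B hd
  rw [Fin.sum_univ_four] at hle
  have h0 : Nat.card {x : Fin (B 0).n → G // ∀ s, x ((B 0).a s) ≠ c' 0 s} =
      (Fintype.card G - 1) * Fintype.card G ^ 3 := count1 3 (c' 0)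
  have h1 : Nat.card {x : Fin (B 1).n → G // ∀ s, x ((B 1).a s) ≠ c' 1 s} =
      (Fintype.card G - 1) * Fintype.card G ^ 2 := count1 2 (c' 1)
  have h2 : Nat.card {x : Fin (B 2).n → G // ∀ s, x ((B 2).a s) ≠ c' 2 s} =
      Fintype.card G ^ 0 := count0 0 fun s x => x ((B 2).a s) ≠ c' 2 s
  have h3 : Nat.card {x : Fin (B 3).n → G // ∀ s, x ((B 3).a s) ≠ c' 3 s} =
      Fintype.card G ^ 2 := count0 2 fun s x => x ((B 3).a s) ≠ c' 3 s
  rw [h0, h1, h2, h3] at hle
  have hcard : Fintype.card (Fin 2 ⊕ Fin 2) = 4 := by simp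
  rw [hcard] at hle
  obtain ⟨R, hR⟩ : ∃ R, Fintype.card G = R + 1 :=
    Nat.exists_eq_succ_of_ne_zero Fintype.card_ne_zero
  rw [hR, Nat.add_sub_cancel] at hle
  have : R * (R + 1) ^ 3 + R * (R + 1) ^ 2 + (R + 1) ^ 0 + (R + 1) ^ 2 = (R + 1) ^ 4 + 1 := by
    ring
  omega

end Pool.Agent.H59.SYA
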