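import Pool.Agent.H19.SYA.TB

/-!
Symplectic torus actions on affine four-space (MP_51eb24_ag): row KPZ.
-/

set_option autoImplicit false

namespace Pool.Agent.H59.SYA.KPZm

open MvPolynomial Pool.Agent.H2.ST Pool.Agent.H15.TG Pool.Agent.H19.SYA

variable {k : Type} [Field k]

lemma pow_br (p F : Pol k 2) (i : ℕ) : p * br (p ^ i) F = (i : Pol k 2) * p ^ i * br p F := by
  induction i with
  | zero =>
    rw [pow_zero, ← C_1, C_br]
    simp
  | succ i ih =>
    rw [pow_succ, mul_br, mul_add]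
    push_cast
    linear_combination p * ih

lemma not_const {p : Pol k 2} (hp : Prime p) : ¬ ∃ c : k, p = C c := by
  rintro ⟨c, rfl⟩
  by_cases hc : c = 0
  · rw [hc, C_0] at hp
    exact hp.ne_zero rfl
  · exact hp.not_isUnit ((isUnit_iff_ne_zero.2 hc).map (C : k →+* Pol k 2))

lemma exists_ndvd [CharZero k] {p : Pol k 2} (hp : Prime p) : ∃ F, ¬ p ∣ br p F := by
  by_contra hcon
  push Not at hcon
  exact not_const hp (const_of_dvd p fun s => hcon (X s))

lemma main_id (p q S H E f F d : Pol k 2) (N w m' n : ℕ) (A B c' : k) (hA0 : A ≠ 0)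
    (hA : A = n + (m' + 1 : ℕ)) (hB : B = ((m' + 1 : ℕ) : k) * w)
    (hE : S ^ (m' + 1) - C c' * q ^ n = p ^ w * E)
    (hP : p ^ (N + w + 1) * d = -(p ^ N * (C (1 / A) * (p ^ w * H - C B * q * S) * br p F +
      p * S * br q F)) + p ^ w * (p * br f F - C (N : k) * f * br p F)) :
    S ^ m' * (p * br (C A * (p ^ w * f) - C ((m' + 1 : ℕ) : k) * (p ^ N * (q * S))) F -
      ((N + w : ℕ) : Pol k 2) * (C A * (p ^ w * f) - C ((m' + 1 : ℕ) : k) * (p ^ N * (q * S))) *
        br p F) =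
    p ^ (N + w) * (C A * p * S ^ m' * d + p * ((n : Pol k 2) * E * br q F - q * br E F) +
      (S ^ m' * H - (w : Pol k 2) * q * E) * br p F) := by
  have hC : (C A : Pol k 2) * C (1 / A) = 1 := by
    rw [← C_mul, mul_one_div_cancel hA0, C_1]
  have hP' : C A * p ^ (N + w + 1) * d = -(p ^ N * ((p ^ w * H - C B * q * S) * br p F +
      C A * p * S * br q F)) + C A * p ^ w * (p * br f F - C (N : k) * f * br p F) := by
    linear_combination C A * hP - p ^ N * (p ^ w * H - C B * q * S) * br p F * hC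
  have ew := pow_br p F w
  have eN := pow_br p F N
  have hU : p * br (C A * (p ^ w * f) - C ((m' + 1 : ℕ) : k) * (p ^ N * (q * S))) F =
      C A * (p ^ w * (p * br f F) + f * ((w : Pol k 2) * p ^ w * br p F)) -
        C ((m' + 1 : ℕ) : k) * (p ^ N * (p * (q * br S F + S * br q F)) +
          q * S * ((N : Pol k 2) * p ^ N * br p F)) := by
    rw [sub_br, mul_br, mul_br, mul_br, mul_br, mul_br, C_br, C_br]
    linear_combination C A * f * ew - C ((m' + 1 : ℕ) : k) * (q * S) * eN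
  have eS := pow_br S F (m' + 1)
  have eq := pow_br q F n
  have hJ : p * S ^ m' * ((n : Pol k 2) * S * br q F - ((m' + 1 : ℕ) : Pol k 2) * q * br S F) =
      p ^ (w + 1) * ((n : Pol k 2) * E * br q F - q * br E F) -
        (w : Pol k 2) * p ^ w * q * E * br p F := by
    have e1 := congrArg (fun x => br x F) hE
    simp only [sub_br, mul_br, C_br] at e1
    have e2 : br (S ^ (m' + 1)) F = ((m' + 1 : ℕ) : Pol k 2) * S ^ m' * br S F := by
      rw [br_anti, br_pow, br_anti F S, Nat.add_sub_cancel]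
      ring
    rw [e2] at e1
    linear_combination (-(p * q)) * e1 + (-(n : Pol k 2) * p * br q F) * hE * (-1) +
      (-(q * E)) * ew - p * C c' * eq
  have hA' : (C A : Pol k 2) = (n : Pol k 2) + ((m' + 1 : ℕ) : Pol k 2) := by
    rw [hA, map_add, map_natCast, map_natCast]
  have hB' : (C B : Pol k 2) = ((m' + 1 : ℕ) : Pol k 2) * (w : Pol k 2) := by
    rw [hB, map_mul, map_natCast, map_natCast]
  rw [hU]
  simp only [map_natCast] at hP' ⊢
  rw [hB'] at hP'
  push_cast at hP' hJ hA' ⊢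
  linear_combination (-S ^ m') * hP' + p ^ N * hJ + (p ^ (N + 1) * S ^ m' * S * br q F) * hA'

theorem pf_KPZ (hLIO : T_LIO) (hPOT : T_POT) : Pool.Agent.H19.SYA.T_KPZ := by
  intro k _ _ _ W H y wy p q S α β L _ _ Θ v w m n c E κ j hy hM hα hj hE hΘE
  obtain ⟨D, hD1, hD2, hD3⟩ := hLIO k W H y wy hy
  obtain ⟨N, f, -, hP⟩ := hPOT k W H y wy p q S α β w D hy hM.toPP hD1 hD2 hD3
  have hCh := hM.ch
  obtain ⟨m', rfl⟩ : ∃ m', m = m' + 1 := ⟨m - 1, by have := hCh.mp; omega⟩
  have hp : Prime p := hCh.pg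
  have hA0 : (α : k) ≠ 0 := Int.cast_ne_zero.2 hCh.pa.ne'
  have hA : (α : k) = n + (m' + 1 : ℕ) := by rw [hα]; push_cast; ring
  have hB : (β : k) = ((m' + 1 : ℕ) : k) * w := by rw [hCh.wf]; push_cast; ring
  have hv0 : v 0 ≠ 0 := hCh.ind.ne_zero 0
  have hw : 0 < w := hCh.wp
  have hI : ∀ F, _ := fun F => main_id p q S H E f F (D F) N w m' n (α : k) (β : k)
    (c ^ (m' + 1)) hA0 hA hB hE (hP F)
  set U : Pol k 2 := C (α : k) * (p ^ w * f) - C ((m' + 1 : ℕ) : k) * (p ^ N * (q * S)) with hU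
  have hpS : ¬ p ∣ S := by
    intro h
    have h1 := (hCh.ker S).2 h
    rw [hM.tS] at h1
    rcases mul_eq_zero.1 h1 with h2 | h2
    · exact hM.c0 ((map_eq_zero _).1 h2)
    · exact pow_ne_zero _ hv0 h2
  obtain ⟨F0, hF0⟩ := exists_ndvd hp
  have hdiv : ∀ i : ℕ, i ≤ N + w → p ^ i ∣ U := by
    intro i
    induction i with
    | zero => intro _; rw [pow_zero]; exact one_dvd _
    | succ i ih =>
      intro hi
      obtain ⟨u, hu⟩ := ih (by omega)
      have h1 := hI F0
      rw [hu, mul_br] at h1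
      have e1 := pow_br p F0 i
      obtain ⟨r, hr⟩ : ∃ r, N + w = i + (r + 1) := ⟨N + w - i - 1, by omega⟩
      rw [hr] at h1
      set XX := C (α : k) * p * S ^ m' * D F0 + p * ((n : Pol k 2) * E * br q F0 - q * br E F0) +
        (S ^ m' * H - (w : Pol k 2) * q * E) * br p F0 with hXX
      have h2 : p ^ i * (S ^ m' * (p * br u F0) - ((r + 1 : ℕ) : Pol k 2) * S ^ m' * u *
          br p F0 - p ^ (r + 1) * XX) = 0 := by
        push_cast at h1 ⊢
        linear_combination h1 - S ^ m' * u * e1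
      have h3 := (mul_eq_zero.1 h2).resolve_left (pow_ne_zero _ hp.ne_zero)
      have h4 : p ∣ ((r + 1 : ℕ) : Pol k 2) * S ^ m' * u * br p F0 := by
        refine ⟨S ^ m' * br u F0 - p ^ r * XX, ?_⟩
        linear_combination (-1 : Pol k 2) * h3
      have h5 : p ∣ u := by
        rcases hp.dvd_or_dvd h4 with h6 | h6
        · rcases hp.dvd_or_dvd h6 with h7 | h7
          · rcases hp.dvd_or_dvd h7 with h8 | h8
            · exfalso
              have : IsUnit ((r + 1 : ℕ) : Pol k 2) := by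
                have h9 := (isUnit_iff_ne_zero.2 (Nat.cast_ne_zero (R := k).2
                  (Nat.succ_ne_zero r))).map (C : k →+* Pol k 2)
                rwa [map_natCast] at h9
              exact hp.not_isUnit (isUnit_of_dvd_unit h8 this)
            · exact absurd (hp.dvd_of_dvd_pow h8) hpS
          · exact h7
        · exact absurd h6 hF0
      obtain ⟨u', hu'⟩ := h5
      exact ⟨u', by rw [hu, hu']; ring⟩
  obtain ⟨u, hu⟩ := hdiv (N + w) le_rfl
  have h1 := hI F0
  rw [hu, mul_br] at h1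
  have e1 := pow_br p F0 (N + w)
  have h2 : p ^ (N + w) * (S ^ m' * (p * br u F0) - (C (α : k) * p * S ^ m' * D F0 +
      p * ((n : Pol k 2) * E * br q F0 - q * br E F0) +
        (S ^ m' * H - (w : Pol k 2) * q * E) * br p F0)) = 0 := by
    linear_combination h1 - S ^ m' * u * e1
  have h3 := (mul_eq_zero.1 h2).resolve_left (pow_ne_zero _ hp.ne_zero)
  have h4 : p ∣ (S ^ m' * H - (w : Pol k 2) * q * E) * br p F0 := by
    refine ⟨S ^ m' * br u F0 - (C (α : k) * S ^ m' * D F0 +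
      ((n : Pol k 2) * E * br q F0 - q * br E F0)), ?_⟩
    linear_combination (-1 : Pol k 2) * h3
  have h5 : p ∣ S ^ m' * H - (w : Pol k 2) * q * E := (hp.dvd_or_dvd h4).resolve_right hF0
  have h6 := (hCh.ker _).2 h5
  rw [map_sub, map_mul, map_mul, map_mul, map_pow, hM.tS, hCh.tH, hCh.tf, hΘE, map_natCast,
    mul_pow, ← pow_mul, ← map_pow] at h6
  rw [Nat.add_sub_cancel] at hj
  have hwk : ((w : ℕ) : k) ≠ 0 := Nat.cast_ne_zero.2 hw.ne'
  have h7 : algebraMap k L (c ^ m') = (w : L) * algebraMap k L (c ^ m' / (w : k)) := by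
    rw [← map_natCast (algebraMap k L) w, ← map_mul, mul_div_cancel₀ _ hwk]
  rw [Nat.add_sub_cancel, h7] at h6
  have h8 : (v 0) ^ (n * m') = v 0 ^ (m' + 1) * v 0 ^ j := by
    rw [← pow_add]
    congr 1
    rw [mul_comm n m', ← hj]
    ring
  rw [h8] at h6
  have h9 : (w : L) * v 0 ^ (m' + 1) * v 0 ^ j * algebraMap k L κ = 0 := by
    linear_combination (-1 : L) * h6
  have hwL : (w : L) ≠ 0 := by
    rw [← map_natCast (algebraMap k L) w]
    exact (map_ne_zero _).2 hwk
  have h10 := (mul_eq_zero.1 h9).resolve_left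
    (mul_ne_zero (mul_ne_zero hwL (pow_ne_zero _ hv0)) (pow_ne_zero _ hv0))
  exact (map_eq_zero _).1 h10

end Pool.Agent.H59.SYA.KPZm
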