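import Pool.Agent.H19.SYA.TB

/-!
Symplectic torus actions on affine four-space (MP_51eb24_ag): row LIO.
-/

set_option autoImplicit false

namespace Pool.Agent.H59.SYA

open MvPolynomial Pool.Agent.H2.ST Pool.Agent.H15.TG Pool.Agent.H19.SYA

lemma hom_ind {k A Γ : Type} [Field k] [CommRing A] [Algebra k A] [AddCommGroup Γ]
    {W : Γ → Submodule k A} (h : Gr W) {p : A → Prop} (h0 : p 0)
    (hadd : ∀ a b, p a → p b → p (a + b)) (hm : ∀ n f, f ∈ W n → p f) (f : A) : p f := by
  suffices h1 : p ((cmp h f).sum fun _ x => x) by rwa [cmp_sum] at h1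
  unfold Finsupp.sum
  exact Finset.sum_induction _ p hadd h0 fun a _ => hm a _ (cmp_mem h f a)

variable {k : Type} [Field k]

/-- the Liouville derivation of the coordinates -/
noncomputable def D0 : Derivation k (Pol k 2) (Pol k 2) :=
  -((X (Sum.inr 0) : Pol k 2) • pderiv (Sum.inr 0) + (X (Sum.inr 1) : Pol k 2) • pderiv (Sum.inr 1))

lemma D0_apply (f : Pol k 2) : D0 f =
    -(X (Sum.inr 0) * pderiv (Sum.inr 0) f + X (Sum.inr 1) * pderiv (Sum.inr 1) f) := rfl

lemma D0_br (f g : Pol k 2) : D0 (br f g) = br (D0 f) g + br f (D0 g) + br f g := by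
  classical
  have c1 : ∀ (i j : Fin 2) (u : Pol k 2), pderiv (Sum.inr j) (pderiv (Sum.inl i) u) =
      pderiv (Sum.inl i) (pderiv (Sum.inr j) u) := fun i j u => pd_comm _ _ u
  have c2 : ∀ (u : Pol k 2), pderiv (Sum.inr 1) (pderiv (Sum.inr 0) u) =
      pderiv (Sum.inr 0) (pderiv (Sum.inr 1) u) := fun u => pd_comm _ _ u
  have x1 : ∀ (i j : Fin 2), pderiv (Sum.inl i) (X (Sum.inr j) : Pol k 2) = 0 := fun i j =>
    pderiv_X_of_ne (by simp)
  have x2 : pderiv (Sum.inr 0) (X (Sum.inr 1) : Pol k 2) = 0 := pderiv_X_of_ne (by simp)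
  have x3 : pderiv (Sum.inr 1) (X (Sum.inr 0) : Pol k 2) = 0 := pderiv_X_of_ne (by simp)
  simp only [D0_apply, br, Fin.sum_univ_two, map_neg, map_add, map_sub, Derivation.leibniz,
    smul_eq_mul, pderiv_X_self, x1, x2, x3, c1, c2]
  ring

lemma cmp_br {W : ℤ → Submodule k (Pol k 2)} (h : PGr W) {l : ℤ} {g : Pol k 2} (hg : g ∈ W l)
    (f : Pol k 2) : ∀ a : ℤ, cmp h.toGr (br f g) (a + l) = br (cmp h.toGr f a) g := by
  refine hom_ind h.toGr (p := fun f => ∀ a : ℤ, cmp h.toGr (br f g) (a + l) =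
    br (cmp h.toGr f a) g) ?_ ?_ ?_ f
  · intro a
    rw [zero_br, map_zero]
    simp [zero_br]
  · intro u v hu hv a
    rw [add_br, LinearMap.map_add, LinearMap.map_add, Finsupp.add_apply, Finsupp.add_apply, hu, hv,
      add_br]
  · intro n u hu a
    rw [cmp_of_mem h.toGr (h.pbr _ _ _ _ hu hg), cmp_of_mem h.toGr hu]
    by_cases hna : n = a
    · rw [hna]; simp
    · rw [Finsupp.single_apply, Finsupp.single_apply, if_neg (fun h' => hna (add_right_cancel h')),
        if_neg hna, zero_br]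

lemma cmp_br' {W : ℤ → Submodule k (Pol k 2)} (h : PGr W) {l : ℤ} {g : Pol k 2} (hg : g ∈ W l)
    (f : Pol k 2) (a : ℤ) : cmp h.toGr (br g f) (l + a) = br g (cmp h.toGr f a) := by
  rw [br_anti g f, map_neg, Finsupp.neg_apply, add_comm l a, cmp_br h hg, br_anti g]

/-- the part of weight zero of `D0` -/
noncomputable def DL {W : ℤ → Submodule k (Pol k 2)} (h : Gr W) : Pol k 2 →ₗ[k] Pol k 2 :=
  (Finsupp.lsum k fun n : ℤ => (Finsupp.lapply n : (ℤ →₀ Pol k 2) →ₗ[k] Pol k 2) ∘ₗ
    (cmp h ∘ₗ (D0 : Derivation k (Pol k 2) (Pol k 2)).toLinearMap)) ∘ₗ cmp h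

lemma DL_of_mem {W : ℤ → Submodule k (Pol k 2)} (h : Gr W) {n : ℤ} {f : Pol k 2}
    (hf : f ∈ W n) : DL h f = cmp h (D0 f) n := by
  unfold DL
  rw [LinearMap.comp_apply, cmp_of_mem h hf, Finsupp.lsum_apply, Finsupp.sum_single_index]
  · rfl
  · exact map_zero _

lemma DL_mul {W : ℤ → Submodule k (Pol k 2)} (h : Gr W) (f g : Pol k 2) :
    DL h (f * g) = f • DL h g + g • DL h f := by
  refine hom_ind h (p := fun f => DL h (f * g) = f • DL h g + g • DL h f) ?_ ?_ ?_ f
  · rw [zero_mul, map_zero, zero_smul, smul_zero, add_zero]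
  · intro a b ha hb
    rw [add_mul, map_add, ha, hb, map_add, smul_add, add_smul]
    abel
  · intro n f hf
    refine hom_ind h (p := fun g => DL h (f * g) = f • DL h g + g • DL h f) ?_ ?_ ?_ g
    · rw [mul_zero, map_zero, zero_smul, smul_zero, add_zero]
    · intro a b ha hb
      rw [mul_add, map_add, ha, hb, map_add, smul_add, add_smul]
      abel
    · intro l g hg
      rw [DL_of_mem h (h.mul _ _ _ _ hf hg), DL_of_mem h hf, DL_of_mem h hg, Derivation.leibniz,
        LinearMap.map_add, Finsupp.add_apply, smul_eq_mul, smul_eq_mul, smul_eq_mul, smul_eq_mul,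
        mul_comm f (D0 g), mul_comm g (D0 f), cmp_mul_of_mem h hg, add_comm n l,
        cmp_mul_of_mem h hf]
      ring

lemma DL_br {W : ℤ → Submodule k (Pol k 2)} (h : PGr W) (f g : Pol k 2) :
    DL h.toGr (br f g) = br (DL h.toGr f) g + br f (DL h.toGr g) + br f g := by
  refine hom_ind h.toGr (p := fun f => DL h.toGr (br f g) =
    br (DL h.toGr f) g + br f (DL h.toGr g) + br f g) ?_ ?_ ?_ f
  · simp only [zero_br, map_zero, add_zero]
  · intro a b ha hb
    simp only [add_br, map_add, ha, hb]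
    abel
  · intro n f hf
    refine hom_ind h.toGr (p := fun g => DL h.toGr (br f g) =
      br (DL h.toGr f) g + br f (DL h.toGr g) + br f g) ?_ ?_ ?_ g
    · simp only [br_zero, map_zero, add_zero]
    · intro a b ha hb
      simp only [br_add, map_add, ha, hb]
      abel
    · intro l g hg
      rw [DL_of_mem h.toGr (h.pbr _ _ _ _ hf hg), DL_of_mem h.toGr hf, DL_of_mem h.toGr hg,
        D0_br, LinearMap.map_add, LinearMap.map_add, Finsupp.add_apply, Finsupp.add_apply,
        cmp_br h hg,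
        cmp_br' h hf, cmp_of_mem h.toGr (h.pbr _ _ _ _ hf hg), Finsupp.single_eq_same]

/-- a derivation in coordinates -/
lemma der_eq (D : Derivation k (Pol k 2) (Pol k 2)) (f : Pol k 2) :
    D f = D (X (Sum.inl 0)) * pderiv (Sum.inl 0) f + D (X (Sum.inl 1)) * pderiv (Sum.inl 1) f +
      D (X (Sum.inr 0)) * pderiv (Sum.inr 0) f + D (X (Sum.inr 1)) * pderiv (Sum.inr 1) f := by
  classical
  have h : D = D (X (Sum.inl 0)) • pderiv (Sum.inl 0) + D (X (Sum.inl 1)) • pderiv (Sum.inl 1) +
      D (X (Sum.inr 0)) • pderiv (Sum.inr 0) + D (X (Sum.inr 1)) • pderiv (Sum.inr 1) := by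
    apply MvPolynomial.derivation_ext
    intro i
    simp only [Derivation.add_apply, Derivation.smul_apply, smul_eq_mul]
    rcases i with i | i <;> fin_cases i <;> simp [pderiv_X]
  exact congrArg (fun E : Derivation k (Pol k 2) (Pol k 2) => E f) h

theorem pf_LIO : Pool.Agent.H19.SYA.T_LIO := by
  intro k _ _ W H y wy hy
  have h : PGr W := hy.toPGr
  let D : Derivation k (Pol k 2) (Pol k 2) := Derivation.mk' (DL h.toGr) (DL_mul h.toGr)
  have hD : ∀ f, D f = DL h.toGr f := fun f => rfl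
  have hW : ∀ n, ∀ f ∈ W n, D f ∈ W n := fun n f hf => by
    rw [hD, DL_of_mem h.toGr hf]; exact cmp_mem _ _ _
  have hL : ∀ f g, D (br f g) = br (D f) g + br f (D g) + br f g := fun f g => by
    rw [hD, hD, hD]; exact DL_br h f g
  refine ⟨D, hW, hL, ?_⟩
  -- the bracket with `D H + H` vanishes
  have h1 : ∀ f, br f (D H + H) = 0 := by
    refine hom_ind h.toGr (p := fun f => br f (D H + H) = 0) (zero_br _) ?_ ?_
    · intro a b ha hb
      rw [add_br, ha, hb, add_zero]
    · intro n f hf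
      have e1 := hL f H
      rw [hy.HE n f hf, Derivation.map_smul, hy.HE n (D f) (hW n f hf)] at e1
      rw [br_add, hy.HE n f hf]
      have e2 : (n : k) • D f = (n : k) • D f + (br f (D H) + (n : k) • f) := by
        rw [← add_assoc]; exact e1
      exact (left_eq_add.1 e2)
  obtain ⟨c, hc⟩ := const_of_br (D H + H) fun s => by rw [br_anti, h1, neg_zero]
  -- constant coefficients
  have h2 : ∀ f, constantCoeff (br f H) = 0 := by
    refine hom_ind h.toGr (p := fun f => constantCoeff (br f H) = 0) (by simp [zero_br]) ?_ ?_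
    · intro a b ha hb
      rw [add_br, map_add, ha, hb, add_zero]
    · intro n f hf
      rw [hy.HE n f hf]
      by_cases hn : n = 0
      · rw [hn]; simp
      · rw [smul_eq_C_mul, map_mul, h.van n hn f hf, mul_zero]
  have h3 : ∀ j, constantCoeff (pderiv (Sum.inr j) H) = 0 := by
    intro j
    have := h2 (X (Sum.inl j))
    rwa [br_anti, br_inl, neg_neg] at this
  have h4 : ∀ j, constantCoeff (pderiv (Sum.inl j) H) = 0 := by
    intro j
    have := h2 (X (Sum.inr j))
    rw [br_anti, br_inr, map_neg, neg_eq_zero] at this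
    exact this
  have h5 : constantCoeff (D H) = 0 := by
    rw [der_eq D H]
    simp only [map_add, map_mul, h3, h4, mul_zero, add_zero]
  have h6 : c = 0 := by
    have := congrArg constantCoeff hc
    rw [map_add, h5, hy.Hc, constantCoeff_C, add_zero] at this
    exact this.symm
  rw [h6, C_0] at hc
  exact eq_neg_of_add_eq_zero_left hc

end Pool.Agent.H59.SYA
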