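import Pool.Agent.H19.SYA.TA

/-!
Symplectic torus actions on affine four-space (MP_51eb24_ag): row SL0.
-/

set_option autoImplicit false

namespace Pool.Agent.H59.SYA.SL0m

open MvPolynomial Pool.Agent.H2.ST Pool.Agent.H15.TG Pool.Agent.H19.SYA

variable {k : Type} [Field k]

lemma hom_ind {A Γ : Type} [CommRing A] [Algebra k A] [AddCommGroup Γ]
    {W : Γ → Submodule k A} (h : Gr W) {p : A → Prop} (h0 : p 0)
    (hadd : ∀ a b, p a → p b → p (a + b)) (hm : ∀ n f, f ∈ W n → p f) (f : A) : p f := by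
  suffices h1 : p ((cmp h f).sum fun _ x => x) by rwa [cmp_sum] at h1
  unfold Finsupp.sum
  exact Finset.sum_induction _ p hadd h0 fun a _ => hm a _ (cmp_mem h f a)

lemma cmp_br' {W : ℤ → Submodule k (Pol k 2)} (h : PGr W) {l : ℤ} {g : Pol k 2} (hg : g ∈ W l)
    (f : Pol k 2) : ∀ a : ℤ, cmp h.toGr (br g f) (l + a) = br g (cmp h.toGr f a) := by
  refine hom_ind h.toGr (p := fun f => ∀ a : ℤ, cmp h.toGr (br g f) (l + a) =
    br g (cmp h.toGr f a)) ?_ ?_ ?_ f
  · intro a
    rw [br_zero, map_zero]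
    simp [br_zero]
  · intro u v hu hv a
    rw [br_add, LinearMap.map_add, LinearMap.map_add, Finsupp.add_apply, Finsupp.add_apply, hu, hv,
      br_add]
  · intro n u hu a
    rw [cmp_of_mem h.toGr (h.pbr _ _ _ _ hg hu), cmp_of_mem h.toGr hu]
    by_cases hna : n = a
    · rw [hna]; simp
    · rw [Finsupp.single_apply, Finsupp.single_apply, if_neg (fun h' => hna (add_left_cancel h')),
        if_neg hna, br_zero]

/-- reduction of the order of nilpotency -/
lemma iter_T (p H F : Pol k 2) (a : k) (hH : br p H = a • p) (j : ℕ) : ∀ c : k,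
    (br p)^[j] (c • (a • p * F) - H * br p F) =
      (c - j) • (a • p * (br p)^[j] F) - H * (br p)^[j + 1] F := by
  induction j with
  | zero => intro c; simp
  | succ j ih =>
    intro c
    rw [Function.iterate_succ_apply', ih c, br_sub, br_smul, br_mul, br_mul, hH, br_smul, br_self,
      smul_zero, mul_zero, add_zero, ← Function.iterate_succ_apply' (br p) j F,
      ← Function.iterate_succ_apply' (br p) (j + 1) F, Nat.cast_succ]
    have e1 : (c - ((j : k) + 1)) • (a • p * (br p)^[j + 1] F) =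
        (c - (j : k)) • (a • p * (br p)^[j + 1] F) - a • p * (br p)^[j + 1] F := by
      rw [← sub_sub, sub_smul, one_smul]
    rw [e1]
    ring

lemma E_zero [CharZero k] (p q H : Pol k 2) (a b : k) (ha : a ≠ 0) (hp : p ≠ 0)
    (hpH : br p H = a • p) (hqH : br q H = b • q) (hpq : br p q = 0)
    (hk : ∀ z, br p z = 0 → br q z = 0) (N : ℕ) : ∀ F : Pol k 2, (br p)^[N] F = 0 →
    a • p * br q F - b • q * br p F = 0 := by
  induction N with
  | zero =>
    intro F hF
    have : F = 0 := hF
    rw [this, br_zero, br_zero, mul_zero, mul_zero, sub_zero]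
  | succ N ih =>
    intro F hF
    rcases Nat.eq_zero_or_pos N with h0 | h0
    · rw [h0] at hF
      have h1 : br p F = 0 := hF
      rw [h1, hk F h1, mul_zero, mul_zero, sub_zero]
    · have e1 : (br p)^[N] ((N : k) • (a • p * F) - H * br p F) = 0 := by
        rw [iter_T p H F a hpH N, sub_self, zero_smul, hF, mul_zero, sub_zero]
      have e2 := ih _ e1
      have e3 := ih (br p F) (by rw [← Function.iterate_succ_apply]; exact hF)
      have hqp : br q p = 0 := by rw [br_anti, hpq, neg_zero]
      rw [br_sub, br_sub, br_smul, br_smul, br_mul, br_mul, br_mul, br_mul, br_smul, br_smul,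
        br_self, hqp, hpH, hqH, smul_zero, mul_zero, add_zero, add_zero] at e2
      have e4 : (N : k) • (a • p * (a • p * br q F - b • q * br p F)) = 0 := by
        have e5 : a • p * ((N : k) • (a • p * br q F) - (H * br q (br p F) + br p F * b • q)) -
            b • q * ((N : k) • (a • p * br p F) - (H * br p (br p F) + br p F * a • p)) =
            (N : k) • (a • p * (a • p * br q F - b • q * br p F)) -
              H * (a • p * br q (br p F) - b • q * br p (br p F)) := by
          simp only [smul_eq_C_mul]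
          ring
        rw [e5, e3, mul_zero, sub_zero] at e2
        exact e2
      rw [smul_eq_zero] at e4
      rcases e4 with e4 | e4
      · exact absurd e4 (Nat.cast_ne_zero.2 h0.ne')
      · rcases mul_eq_zero.1 e4 with e6 | e6
        · exact absurd e6 (smul_ne_zero ha hp)
        · exact e6

lemma not_dep [CharZero k] (p q : Pol k 2) (a b : ℕ) (ha : 0 < a) (hb : 0 < b)
    (hai : AlgebraicIndependent k ![p, q])
    (h : ∀ F, (a : k) • p * br q F - (b : k) • q * br p F = 0) : False := by
  have hp : p ≠ 0 := hai.ne_zero 0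
  have hq : q ≠ 0 := hai.ne_zero 1
  have h1 : ∀ F, p ^ b * br (q ^ a) F = q ^ a * br (p ^ b) F := by
    intro F
    have h2 := h F
    rw [br_anti (q ^ a) F, br_anti (p ^ b) F, br_pow, br_pow, br_anti F q, br_anti F p]
    rw [smul_eq_C_mul, smul_eq_C_mul, map_natCast, map_natCast] at h2
    obtain ⟨a', rfl⟩ : ∃ a', a = a' + 1 := ⟨a - 1, by omega⟩
    obtain ⟨b', rfl⟩ : ∃ b', b = b' + 1 := ⟨b - 1, by omega⟩
    simp only [Nat.add_sub_cancel]
    have h3 : ((a' + 1 : ℕ) : Pol k 2) * p * br q F = ((b' + 1 : ℕ) : Pol k 2) * q * br p F :=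
      sub_eq_zero.1 h2
    linear_combination p ^ b' * q ^ a' * h3
  obtain ⟨u, v, d, huv, hu, hv⟩ := UniqueFactorizationMonoid.exists_reduced_factors (p ^ b)
    (pow_ne_zero _ hp) (q ^ a)
  have hd : d ≠ 0 := by
    rintro rfl
    rw [zero_mul] at hu
    exact pow_ne_zero _ hp hu.symm
  have h4 : ∀ F, u * br v F = v * br u F := by
    intro F
    have h5 := h1 F
    rw [← hu, ← hv, mul_br, mul_br] at h5
    have h6 : d * d * (u * br v F - v * br u F) = 0 := by linear_combination h5
    rcases mul_eq_zero.1 h6 with h7 | h7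
    · exact absurd (mul_self_eq_zero.1 h7) hd
    · exact sub_eq_zero.1 h7
  obtain ⟨c, hc⟩ := const_of_dvd u fun s =>
    huv.dvd_of_dvd_mul_left ⟨br v (X s), (h4 (X s)).symm⟩
  obtain ⟨c', hc'⟩ := const_of_dvd v fun s =>
    huv.symm.dvd_of_dvd_mul_left ⟨br u (X s), h4 (X s)⟩
  have h8 : aeval ![p, q] (C c' * X 0 ^ b - C c * X 1 ^ a : MvPolynomial (Fin 2) k) = 0 := by
    simp only [map_sub, map_mul, map_pow, aeval_X, aeval_C, MvPolynomial.algebraMap_eq]
    rw [← hc', ← hc]
    change v * p ^ b - u * q ^ a = 0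
    rw [← hu, ← hv]
    ring
  have h9 : (C c' * X 0 ^ b - C c * X 1 ^ a : MvPolynomial (Fin 2) k) = 0 :=
    (injective_iff_map_eq_zero _).1 hai _ h8
  have h10 : c' = 0 := by
    have := congrArg (aeval (R := k) ![(1 : k), 0]) h9
    simpa [ha.ne'] using this
  rw [h10, C_0] at hc'
  rw [hc', mul_zero] at hv
  exact pow_ne_zero _ hq hv.symm

theorem pf_SL0 : Pool.Agent.H19.SYA.T_SL0 := by
  intro k _ _ _ W H y w p q α β hy hc
  have h : PGr W := hy.toPGr
  have hp : p ≠ 0 := hc.ai.ne_zero 0
  have hcomm : ∀ F, br p (br q F) = br q (br p F) := by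
    intro F
    rw [jac, hc.pq, zero_br, zero_add]
  -- existence of `z`
  obtain ⟨z, hz1, hz2⟩ : ∃ z, br p z = 0 ∧ br q z ≠ 0 := by
    by_contra hcon
    push Not at hcon
    have hα : ((α.toNat : ℕ) : ℤ) = α := Int.toNat_of_nonneg hc.pa.le
    have hβ : ((β.toNat : ℕ) : ℤ) = β := Int.toNat_of_nonneg hc.pb.le
    have e1 : br p H = ((α.toNat : ℕ) : k) • p := by
      rw [hy.HE α p hc.hp, ← hα, Int.cast_natCast, Int.toNat_natCast]
    have e2 : br q H = ((β.toNat : ℕ) : k) • q := by
      rw [hy.HE β q hc.hq, ← hβ, Int.cast_natCast, Int.toNat_natCast]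
    have hα0 : 0 < α.toNat := by have := hc.pa; omega
    have hβ0 : 0 < β.toNat := by have := hc.pb; omega
    refine not_dep p q α.toNat β.toNat hα0 hβ0 hc.ai fun F => ?_
    obtain ⟨N, hN⟩ := hc.lp F
    exact E_zero p q H _ _ (Nat.cast_ne_zero.2 hα0.ne') hp e1 e2 hc.pq hcon N F hN
  -- a homogeneous component
  obtain ⟨n, hn⟩ : ∃ n : ℤ, br q (cmp h.toGr z n) ≠ 0 := by
    by_contra hcon
    push Not at hcon
    apply hz2
    have e1 : z = ∑ n ∈ (cmp h.toGr z).support, cmp h.toGr z n := (cmp_sum h.toGr z).symm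
    rw [e1, br_sum]
    exact Finset.sum_eq_zero fun n _ => hcon n
  have hn1 : br p (cmp h.toGr z n) = 0 := by
    rw [← cmp_br' h hc.hp z n, hz1, map_zero, Finsupp.zero_apply]
  set x := cmp h.toGr z n with hx
  have hxW : x ∈ W n := cmp_mem _ _ _
  have hx0 : x ≠ 0 := by
    intro h0
    rw [h0, br_zero] at hn
    exact hn rfl
  have hiW : ∀ j : ℕ, (br q)^[j] x ∈ W (n + j * β) := by
    intro j
    induction j with
    | zero => simpa using hxW
    | succ j ih =>
      rw [Function.iterate_succ_apply']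
      have := h.pbr _ _ _ _ hc.hq ih
      have e : β + (n + (j : ℤ) * β) = n + ((j + 1 : ℕ) : ℤ) * β := by push_cast; ring
      rwa [e] at this
  have hip : ∀ j : ℕ, br p ((br q)^[j] x) = 0 := by
    intro j
    induction j with
    | zero => exact hn1
    | succ j ih => rw [Function.iterate_succ_apply', hcomm, ih, br_zero]
  have hex : ∃ N, (br q)^[N] x = 0 := hc.lq x
  classical
  obtain ⟨M, hM⟩ : ∃ M, Nat.find hex = M + 2 := by
    refine ⟨Nat.find hex - 2, ?_⟩
    have h2 : ¬ Nat.find hex < 2 := by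
      intro hlt
      have h3 := Nat.find_spec hex
      have h4 : Nat.find hex = 0 ∨ Nat.find hex = 1 := by omega
      rcases h4 with h4 | h4
      · rw [h4] at h3; exact hx0 h3
      · rw [h4] at h3; exact hn h3
    omega
  refine ⟨(br q)^[M] x, n + M * β, hiW M, hip M, ?_, ?_⟩
  · rw [← Function.iterate_succ_apply' (br q) M x]
    exact Nat.find_min hex (by omega)
  · rw [← Function.iterate_succ_apply' (br q) M x, ← Function.iterate_succ_apply' (br q) (M + 1) x]
    have := Nat.find_spec hex
    rwa [hM] at this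

end Pool.Agent.H59.SYA.SL0m
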