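import Pool.Agent.H19.SYA.TB

/-!
Symplectic torus actions on affine four-space (MP_51eb24_ag): row SWP.
-/

set_option autoImplicit false

namespace Pool.Agent.H59.SYA

open MvPolynomial Pool.Agent.H2.ST Pool.Agent.H15.TG Pool.Agent.H19.SYA

theorem pf_SWP : Pool.Agent.H19.SYA.T_SWP := by
  intro k _ _ _ W K g e ω l h
  have hg : (![g 1, g 0] : Fin (0 + 2) → Pol k 2) = fun i => g (Fin.rev i) := by
    funext i; fin_cases i <;> rfl
  have he : (![e 1, e 0] : Fin (0 + 2) → ℕ) = fun i => e (Fin.rev i) := by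
    funext i; fin_cases i <;> rfl
  have hω : (![ω 1, ω 0] : Fin (0 + 2) → ℕ) = fun i => ω (Fin.rev i) := by
    funext i; fin_cases i <;> rfl
  have hr : ∀ i j : Fin (0 + 2), i ≠ j → Fin.rev i ≠ Fin.rev j := fun i j hij h' =>
    hij (Fin.rev_injective h')
  rw [hg, he, hω]
  refine { toCC := h.toCC, pg := fun i => h.pg _, gK := fun i => h.gK _, gw := fun i => h.gw _,
           ep := fun i => h.ep _, eo := fun i => h.eo _, lp := h.lp,
           na := fun i j hij => h.na _ _ (hr i j hij),
           cop := fun i j hij => h.cop _ _ (hr i j hij),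
           one := ?_, pl := fun i j t hij => h.pl _ _ _ (hr i j hij),
           ot := ?_, gen := ?_, alt := Or.inl rfl }
  · obtain ⟨c, hc⟩ := h.one
    refine ⟨fun i => c (Fin.rev i), ?_⟩
    rw [← hc]
    exact Equiv.sum_comp Fin.revPerm fun i => c i * (ω i : ℤ)
  · intro r p hp hK hr'
    rcases h.ot r p hp hK hr' with ⟨i, hi⟩ | ⟨a, b, ha, hb, hab⟩
    · exact Or.inl ⟨Fin.rev i, by simpa using hi⟩
    · refine Or.inr ⟨b, a, hb, ha, ?_⟩
      have h0 : Fin.rev (0 : Fin (0 + 2)) = 1 := rfl
      have h1 : Fin.rev (1 : Fin (0 + 2)) = 0 := rfl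
      rw [hab]
      simp only [h0, h1]
      exact add_comm _ _
  · intro f hf
    have : Set.range (fun i => g (Fin.rev i)) = Set.range g :=
      Fin.revPerm.surjective.range_comp g
    rw [this]
    exact h.gen f hf

end Pool.Agent.H59.SYA
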