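import Pool.Agent.H19.SYA.TA

/-!
Symplectic torus actions on affine four-space (MP_51eb24_ag): row TPA.
-/

set_option autoImplicit false

namespace Pool.Agent.H59.SYA.TPAm

open MvPolynomial Pool.Agent.H2.ST Pool.Agent.H15.TG Pool.Agent.H19.SYA

variable {k : Type} [Field k]

lemma hom_ind {A Γ : Type} [CommRing A] [Algebra k A] [AddCommGroup Γ]
    {W : Γ → Submodule k A} (h : Gr W) {p : A → Prop} (h0 : p 0)
    (hadd : ∀ a b, p a → p b → p (a + b)) (hm : ∀ n f, f ∈ W n → p f) (f : A) : p f := by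
  suffices h1 : p ((cmp h f).sum fun _ x => x) by rwa [cmp_sum] at h1
  unfold Finsupp.sum
  exact Finset.sum_induction _ p hadd h0 fun a _ => hm a _ (cmp_mem h f a)

lemma cmp_br {W : ℤ → Submodule k (Pol k 2)} (h : PGr W) {l : ℤ} {g : Pol k 2} (hg : g ∈ W l)
    (f : Pol k 2) : ∀ a : ℤ, cmp h.toGr (br f g) (a + l) = br (cmp h.toGr f a) g := by
  refine hom_ind h.toGr (p := fun f => ∀ a : ℤ, cmp h.toGr (br f g) (a + l) =
    br (cmp h.toGr f a) g) ?_ ?_ ?_ f
  · intro a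
    rw [zero_br, map_zero]
    simp [zero_br]
  · intro u v hu hv a
    rw [add_br, LinearMap.map_add, LinearMap.map_add, Finsupp.add_apply, Finsupp.add_apply, hu, hv,
      add_br]
  · intro n u hu a
    rw [cmp_of_mem h.toGr (h.pbr _ _ _ _ hu hg), cmp_of_mem h.toGr hu]
    by_cases hna : n = a
    · rw [hna]; simp
    · rw [Finsupp.single_apply, Finsupp.single_apply, if_neg (fun h' => hna (add_right_cancel h')),
        if_neg hna, zero_br]

/-- the component of highest weight of a bracket -/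
lemma cmp_br_top {W : ℤ → Submodule k (Pol k 2)} (h : PGr W) (f g : Pol k 2) (n m : ℤ)
    (hf : ∀ j, n < j → cmp h.toGr f j = 0) (hg : ∀ j, m < j → cmp h.toGr g j = 0) :
    cmp h.toGr (br f g) (n + m) = br (cmp h.toGr f n) (cmp h.toGr g m) := by
  classical
  have h1 : br f g = ∑ j ∈ (cmp h.toGr g).support, br f (cmp h.toGr g j) := by
    conv_lhs => rw [← cmp_sum h.toGr g]
    unfold Finsupp.sum
    rw [br_sum]
  rw [h1, map_sum, Finsupp.finsetSum_apply]
  have h2 : ∀ j ∈ (cmp h.toGr g).support, cmp h.toGr (br f (cmp h.toGr g j)) (n + m) =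
      if j = m then br (cmp h.toGr f n) (cmp h.toGr g m) else 0 := by
    intro j hj
    have e1 := cmp_br h (cmp_mem h.toGr g j) f (n + m - j)
    rw [sub_add_cancel] at e1
    rw [e1]
    split_ifs with hjm
    · rw [hjm, add_sub_cancel_right]
    · have hj0 : j ≤ m := by
        by_contra hlt
        exact (Finsupp.mem_support_iff.1 hj) (hg j (not_le.1 hlt))
      rw [hf (n + m - j) (by omega), zero_br]
  rw [Finset.sum_congr rfl h2, Finset.sum_ite_eq']
  split_ifs with hm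
  · rfl
  · rw [Finsupp.notMem_support_iff.1 hm, br_zero]

/-- polynomials in `x_0, x_1` -/
noncomputable abbrev LL (k : Type) [Field k] : Subalgebra k (Pol k 2) :=
  Algebra.adjoin k {(X (Sum.inl 0) : Pol k 2), X (Sum.inl 1)}

lemma br_xx (i j : Fin 2) : br (X (Sum.inl i) : Pol k 2) (X (Sum.inl j)) = 0 := by
  classical
  rw [br_inl, pderiv_X_of_ne (by simp), neg_zero]

lemma LL_comm : ∀ f ∈ LL k, ∀ g ∈ LL k, br f g = 0 := by
  have h1 : LL k ≤ Cen {(X (Sum.inl 0) : Pol k 2), X (Sum.inl 1)} := by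
    refine Algebra.adjoin_le ?_
    rintro _ (rfl | rfl) g hg
    · rcases hg with rfl | rfl <;> exact br_xx _ _
    · rcases hg with rfl | rfl <;> exact br_xx _ _
  have h2 : LL k ≤ Cen (LL k : Set (Pol k 2)) := by
    refine Algebra.adjoin_le ?_
    intro s hs g hg
    rw [br_anti, h1 hg s hs, neg_zero]
  exact fun f hf g hg => h2 hf g hg

lemma LL_pd (j : Fin 2) : ∀ f ∈ LL k, pderiv (Sum.inl j) f ∈ LL k := by
  classical
  intro f hf
  induction hf using Algebra.adjoin_induction with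
  | mem x hx =>
    rcases hx with rfl | rfl
    · rw [pderiv_X]
      by_cases h : (Sum.inl j : Fin 2 ⊕ Fin 2) = Sum.inl 0
      · rw [h, Pi.single_eq_same]; exact one_mem _
      · rw [Pi.single_eq_of_ne (fun h' => h h'.symm)]; exact zero_mem _
    · rw [pderiv_X]
      by_cases h : (Sum.inl j : Fin 2 ⊕ Fin 2) = Sum.inl 1
      · rw [h, Pi.single_eq_same]; exact one_mem _
      · rw [Pi.single_eq_of_ne (fun h' => h h'.symm)]; exact zero_mem _
  | algebraMap r =>
    rw [MvPolynomial.algebraMap_eq, pderiv_C]; exact zero_mem _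
  | add x y _ _ hx hy => rw [map_add]; exact add_mem hx hy
  | mul x y hx0 hy0 hx hy =>
    rw [Derivation.leibniz, smul_eq_mul, smul_eq_mul]
    exact add_mem (mul_mem hx0 hy) (mul_mem hy0 hx)

lemma LL_LN (hNIL : T_NIL) : ∀ f ∈ LL k, LN f := by
  intro f hf x
  have h1 : ∀ s ∈ Set.range (X : Fin 2 ⊕ Fin 2 → Pol k 2), ∃ n : ℕ, (ad f)^[n] s = 0 := by
    rintro _ ⟨s, rfl⟩
    rcases s with j | j
    · refine ⟨1, ?_⟩
      rw [Function.iterate_one, ad_apply]
      refine LL_comm f hf _ (Algebra.subset_adjoin ?_)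
      fin_cases j
      · exact Or.inl rfl
      · exact Or.inr rfl
    · refine ⟨2, ?_⟩
      rw [Function.iterate_succ_apply, Function.iterate_one, ad_apply, ad_apply, br_inr]
      exact LL_comm f hf _ (LL_pd j f hf)
  obtain ⟨N, hN⟩ := hNIL k (Pol k 2) (ad f) (Set.range X) h1 x (by
    rw [MvPolynomial.adjoin_range_X]; exact Algebra.mem_top)
  refine ⟨N, ?_⟩
  have h2 : (ad f : Pol k 2 → Pol k 2) = br f := funext fun g => ad_apply f g
  rw [← h2]; exact hN

lemma exists_top {W : ℤ → Submodule k (Pol k 2)} (h : Gr W) {f : Pol k 2} (hf : f ≠ 0) :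
    ∃ n : ℤ, cmp h f n ≠ 0 ∧ ∀ j, n < j → cmp h f j = 0 := by
  classical
  have hne : (cmp h f).support.Nonempty := by
    rw [Finset.nonempty_iff_ne_empty]
    intro he
    apply hf
    rw [← cmp_sum h f]
    unfold Finsupp.sum
    rw [he, Finset.sum_empty]
  refine ⟨(cmp h f).support.max' hne, Finsupp.mem_support_iff.1 (Finset.max'_mem _ _), ?_⟩
  intro j hj
  by_contra hne'
  exact absurd (Finset.le_max' _ j (Finsupp.mem_support_iff.2 hne')) (not_le.2 hj)

lemma C_mem {W : ℤ → Submodule k (Pol k 2)} (h : Gr W) (c : k) : (C c : Pol k 2) ∈ W 0 :=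
  algebraMap_mem_gr h c

lemma NC_of {W : ℤ → Submodule k (Pol k 2)} (h : Gr W) {n : ℤ} {f : Pol k 2} (hf : f ∈ W n)
    (h0 : f ≠ 0) (hn : n ≠ 0) : NC f := by
  rintro ⟨c, rfl⟩
  exact hn (wt_uniq h hf (C_mem h c) h0)

theorem pf_TPA (hTOP : T_TOP) (hNIL : T_NIL) : Pool.Agent.H19.SYA.T_TPA := by
  intro k _ _ _ W H y w hy
  have h : PGr W := hy.toPGr
  have hb : ∀ f ∈ LL k, ∀ g ∈ LL k, ∀ n m : ℤ, (∀ j, n < j → cmp hy.toGr f j = 0) →
      (∀ j, m < j → cmp hy.toGr g j = 0) →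
      br (cmp hy.toGr f n) (cmp hy.toGr g m) = 0 := by
    intro f hf g hg n m h1 h2
    rw [← cmp_br_top h f g n m h1 h2, LL_comm f hf g hg, map_zero, Finsupp.zero_apply]
  refine ⟨?_, hb⟩
  intro f hf hNC
  have hx0 : (X (Sum.inl 0) : Pol k 2) ∈ LL k := Algebra.subset_adjoin (Or.inl rfl)
  -- the top of `x_0`
  obtain ⟨t0, ht0, ht1⟩ := exists_top hy.toGr (f := (X (Sum.inl 0) : Pol k 2)) (X_ne_zero _)
  have ht : 0 < t0 := by
    obtain ⟨n, hn, hn'⟩ := hy.xp hy.toGr
    by_contra hlt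
    exact hn' (ht1 n (by omega))
  have hT0 : LN (cmp hy.toGr (X (Sum.inl 0) : Pol k 2) t0) :=
    hTOP k 2 ℤ W h _ t0 (LL_LN hNIL _ hx0) ht1
  have hT0c : NC (cmp hy.toGr (X (Sum.inl 0) : Pol k 2) t0) :=
    NC_of hy.toGr (cmp_mem _ _ _) ht0 ht.ne'
  -- nonconstant tops have positive weights
  have key : ∀ g ∈ LL k, ∀ n : ℤ, (∀ j, n < j → cmp hy.toGr g j = 0) →
      NC (cmp hy.toGr g n) → 0 < n := by
    intro g hg n hn hc
    have h1 := hy.bad n t0 _ _ (cmp_mem hy.toGr g n) (cmp_mem _ _ _) hc hT0c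
      (hTOP k 2 ℤ W h g n (LL_LN hNIL _ hg) hn) hT0 (hb g hg _ hx0 n t0 hn ht1)
    by_contra hlt
    have : n * t0 ≤ 0 := mul_nonpos_of_nonpos_of_nonneg (not_lt.1 hlt) ht.le
    omega
  have hf0 : f ≠ 0 := by
    rintro rfl
    exact hNC ⟨0, C_0.symm⟩
  obtain ⟨n, hn, hn'⟩ := exists_top hy.toGr hf0
  refine ⟨n, ?_, hn, hn', hTOP k 2 ℤ W h f n (LL_LN hNIL _ hf) hn'⟩
  by_cases hc : NC (cmp hy.toGr f n)
  · exact key f hf n hn' hc
  · exfalso
    unfold NC at hc
    rw [not_not] at hc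
    obtain ⟨c, hc⟩ := hc
    have hn0 : n = 0 := wt_uniq hy.toGr (cmp_mem hy.toGr f n) (hc ▸ C_mem hy.toGr c) hn
    rw [hn0] at hc hn'
    set g : Pol k 2 := f - C c with hg
    have hgL : g ∈ LL k := by
      refine sub_mem hf ?_
      exact Subalgebra.algebraMap_mem _ c
    have hg0 : g ≠ 0 := by
      intro h0
      exact hNC ⟨c, sub_eq_zero.1 h0⟩
    have hcmp : ∀ j, 0 ≤ j → cmp hy.toGr g j = 0 := by
      intro j hj
      rw [hg, map_sub, Finsupp.sub_apply, cmp_of_mem hy.toGr (C_mem hy.toGr c)]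
      rcases hj.lt_or_eq with h1 | h1
      · rw [hn' j h1, Finsupp.single_apply, if_neg h1.ne, sub_zero]
      · rw [← h1, hc, Finsupp.single_eq_same, sub_self]
    obtain ⟨n', hn1, hn2⟩ := exists_top hy.toGr hg0
    have hneg : n' < 0 := by
      by_contra hle
      exact hn1 (hcmp n' (not_lt.1 hle))
    have := key g hgL n' hn2 (NC_of hy.toGr (cmp_mem _ _ _) hn1 hneg.ne)
    omega

end Pool.Agent.H59.SYA.TPAm
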